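import Pool.Agent.MWGX.StmtsA

/-!
# MWGX, part A, row KZX (MP_23468a_al): exchanges keep `KZ` and `Az`
-/

set_option autoImplicit false

namespace Pool.Agent.MWGX.H45

open Pool.Agent.Helper14_MV Pool.Agent.Helper2_MV
open Pool.Agent.MWK (pre)
open Pool.Agent.MWGN (nn)
open Pool.Agent.MWGQ (pw Gn)

/-- the common properties of the two sides of an exchange -/
structure GP (Z A B g : List ℕ) : Prop where
  cnt : ∃ K, 3 ≤ K ∧ ∀ d, g.count d = K * Z.count d + (A.count d + B.count d)
  ini : ∃ g1, g = Z ++ g1
  fin : ∃ g2, g = g2 ++ Z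

theorem pw_end (k : ℕ) (u : List ℕ) (hk : 1 ≤ k) : ∃ v, pw k u = v ++ u := by
  induction k with
  | zero => omega
  | succ k ih =>
    rcases Nat.eq_zero_or_pos k with h | h
    · subst h
      exact ⟨[], by rw [pw_succ, pw_zero]; simp⟩
    · obtain ⟨v, hv⟩ := ih h
      exact ⟨u ++ v, by rw [pw_succ, hv, List.append_assoc]⟩

theorem gpL (n c : ℕ) (hn : 1 ≤ n) (Z A B : List ℕ) : GP Z A B (gL n c Z A B) where
  cnt := ⟨3 * n + c, by omega, fun d => by
    simp only [gL, List.count_append, count_pw]
    ring⟩
  ini := by
    obtain ⟨k, rfl⟩ : ∃ k, n = k + 1 := ⟨n - 1, by omega⟩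
    refine ⟨pw k Z ++ (A ++ (pw (k + 1 + c) Z ++ (B ++ pw (k + 1) Z))), ?_⟩
    rw [gL, pw_succ k Z, List.append_assoc]
  fin := by
    obtain ⟨v, hv⟩ := pw_end n Z hn
    refine ⟨pw n Z ++ (A ++ (pw (n + c) Z ++ (B ++ v))), ?_⟩
    rw [gL]
    conv_lhs =>
      enter [2, 2, 2, 2]
      rw [hv]
    simp [List.append_assoc]

theorem gpR (n c : ℕ) (hn : 1 ≤ n) (Z A B : List ℕ) : GP Z A B (gR n c Z A B) where
  cnt := ⟨(n + c) + (n + (n - 1) * c) + (n + c), by
    have : 0 ≤ (n - 1) * c := Nat.zero_le _
    omega, fun d => by
    simp only [gR, List.count_append, count_pw]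
    ring⟩
  ini := by
    obtain ⟨k, hk⟩ : ∃ k, n + c = k + 1 := ⟨n + c - 1, by omega⟩
    refine ⟨pw k Z ++ (B ++ (pw (n + (n - 1) * c) Z ++ (A ++ pw (n + c) Z))), ?_⟩
    rw [gR]
    conv_lhs =>
      enter [1]
      rw [hk, pw_succ k Z]
    rw [List.append_assoc]
  fin := by
    obtain ⟨v, hv⟩ := pw_end (n + c) Z (by omega)
    refine ⟨pw (n + c) Z ++ (B ++ (pw (n + (n - 1) * c) Z ++ (A ++ v))), ?_⟩
    rw [gR]
    conv_lhs =>
      enter [2, 2, 2, 2]
      rw [hv]
    simp [List.append_assoc]

/-- a letter of `Z` is in front of and behind the first `z`, if `z ∉ Z` -/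
theorem GP.pre {Z A B g : List ℕ} (h : GP Z A B g) {z d : ℕ} (hz : z ∉ Z) (hg : z ∈ g)
    (hd : d ∈ Z) : 1 ≤ (pre g z).count d ∧ (pre g z).count d < g.count d := by
  have hd' : 0 < Z.count d := List.count_pos_iff.2 hd
  constructor
  · obtain ⟨g1, e⟩ := h.ini
    rw [e, MWK.pre_append hz, List.count_append]
    omega
  · obtain ⟨g2, e⟩ := h.fin
    have h2 : z ∈ g2 := by
      rw [e, List.mem_append] at hg
      exact hg.resolve_right hz
    have h3 := MWK.count_pre_le g2 d z
    rw [e, MWK.pre_append_mem h2, List.count_append]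
    omega

/-- one direction -/
theorem core {p g g' R Z A B F G H u u' : List ℕ} (hu : u = p ++ (g ++ R))
    (hu' : u' = p ++ (g' ++ R)) (hR : R = F ++ (A ++ (G ++ (B ++ H)))) (gp : GP Z A B g)
    (gp' : GP Z A B g') (hG : ∀ d ∈ G, 2 ≤ u.count d) (kz : KZ u) (az : Az u) (ox : OX u u') :
    KZ u' ∧ Az u' := by
  obtain ⟨K, hK, hg⟩ := gp.cnt
  obtain ⟨K', hK', hg'⟩ := gp'.cnt
  have cu : ∀ d, u.count d = p.count d + g.count d + R.count d := by
    intro d
    rw [hu, List.count_append, List.count_append]
    omega
  have cu' : ∀ d, u'.count d = p.count d + g'.count d + R.count d := by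
    intro d
    rw [hu', List.count_append, List.count_append]
    omega
  have cR : ∀ d, R.count d = F.count d + A.count d + G.count d + B.count d + H.count d := by
    intro d
    rw [hR]
    simp only [List.count_append]
    omega
  -- simple letters
  have sim : ∀ s, u.count s = 1 → Z.count s = 0 ∧ A.count s = 0 ∧ B.count s = 0 ∧ G.count s = 0 := by
    intro s hs
    have h1 := cu s
    have h2 := hg s
    have h3 := cR s
    have h4 : 3 * Z.count s ≤ K * Z.count s := Nat.mul_le_mul_right _ hK
    have h5 : G.count s = 0 := by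
      apply List.count_eq_zero.2
      intro h
      have := hG s h
      omega
    omega
  obtain ⟨z3Z, z3A, z3B, z3G⟩ := sim 3 kz.s3
  obtain ⟨z5Z, z5A, z5B, z5G⟩ := sim 5 kz.s5
  have g3 : g.count 3 = 0 := by rw [hg, z3Z, z3A, z3B]; omega
  have g5 : g.count 5 = 0 := by rw [hg, z5Z, z5A, z5B]; omega
  have zero : ∀ d, g.count d = 0 → g'.count d = 0 := by
    intro d h
    have h1 := hg d
    have h4 : 3 * Z.count d ≤ K * Z.count d := Nat.mul_le_mul_right _ hK
    have h5 : Z.count d = 0 := by omega
    have h6 := hg' d
    rw [h5, Nat.mul_zero] at h6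
    omega
  -- it is enough: `Az` and the condition for `2`
  have enough : Az u' → nn u' 2 4 = 1 → KZ u' ∧ Az u' := by
    intro h1 h2
    refine ⟨ox.kz kz ?_ h2, h1⟩
    have h3 := (ox.c2 1).1 kz.a2
    unfold Az at h1
    omega
  have azu : nn u 1 4 = u.count 1 := az
  by_cases hp : 4 ∈ p
  · have e1 : ∀ d, nn u d 4 = (pre p 4).count d := by
      intro d
      unfold nn
      rw [hu, MWK.pre_append_mem hp]
    have e2 : ∀ d, nn u' d 4 = (pre p 4).count d := by
      intro d
      unfold nn
      rw [hu', MWK.pre_append_mem hp]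
    have h1 := MWK.count_pre_le p 1 4
    have h2 := cu 1
    have h3 := e1 1
    have h4 := zero 1 (by omega)
    apply enough
    · unfold Az
      have h5 := cu' 1
      have h6 := e2 1
      omega
    · rw [e2, ← e1]
      exact kz.bz
  · have p4 : p.count 4 = 0 := List.count_eq_zero.2 hp
    have h5p : 5 ∉ p := by
      intro h
      have h1 : nn u 4 5 = (pre p 5).count 4 := by
        unfold nn
        rw [hu, MWK.pre_append_mem h]
      have h2 := MWK.count_pre_le p 4 5
      have h3 := kz.z5
      omega
    have e5 : ∀ d, nn u d 5 = p.count d + g.count d + (pre R 5).count d := by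
      intro d
      unfold nn
      rw [hu, MWK.pre_append h5p, MWK.pre_append (List.count_eq_zero.1 g5), List.count_append,
        List.count_append]
      omega
    have h45 := e5 4
    rw [kz.z5, p4] at h45
    have hg4 := hg 4
    have h4Z : Z.count 4 = 0 := by
      have h4 : 3 * Z.count 4 ≤ K * Z.count 4 := Nat.mul_le_mul_right _ hK
      omega
    have h4Z' : 4 ∉ Z := List.count_eq_zero.1 h4Z
    rw [h4Z, Nat.mul_zero, Nat.zero_add] at hg4
    have hg4' := hg' 4
    rw [h4Z, Nat.mul_zero, Nat.zero_add] at hg4'
    rcases Nat.eq_zero_or_pos (A.count 4 + B.count 4) with h0 | h0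
    · have h4g : 4 ∉ g := List.count_eq_zero.1 (by omega)
      have h4g' : 4 ∉ g' := List.count_eq_zero.1 (by omega)
      have e4 : ∀ d, nn u d 4 = p.count d + g.count d + (pre R 4).count d := by
        intro d
        unfold nn
        rw [hu, MWK.pre_append hp, MWK.pre_append h4g, List.count_append, List.count_append]
        omega
      have e4' : ∀ d, nn u' d 4 = p.count d + g'.count d + (pre R 4).count d := by
        intro d
        unfold nn
        rw [hu', MWK.pre_append hp, MWK.pre_append h4g', List.count_append, List.count_append]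
        omega
      apply enough
      · have h1 := e4 1
        have h2 := cu 1
        have h3 := e4' 1
        have h6 := cu' 1
        unfold Az
        omega
      · have h1 := e4 2
        rw [kz.bz] at h1
        have h2 := hg 2
        have h3 := hg' 2
        have h4 : 3 * Z.count 2 ≤ K * Z.count 2 := Nat.mul_le_mul_right _ hK
        have h5 : Z.count 2 = 0 := by omega
        rw [h5, Nat.mul_zero] at h2 h3
        have h6 := e4' 2
        omega
    · have h5R : (pre R 5).count 4 = 0 := by omega
      have m5R : 5 ∈ R := by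
        have h1 := cu 5
        rw [kz.s5, g5, List.count_eq_zero.2 h5p] at h1
        exact List.count_pos_iff.1 (by omega)
      have h5F : 5 ∈ F := by
        by_contra hF
        have h1 : pre R 5 = F ++ (A ++ (G ++ (B ++ pre H 5))) := by
          rw [hR, MWK.pre_append hF, MWK.pre_append (List.count_eq_zero.1 z5A),
            MWK.pre_append (List.count_eq_zero.1 z5G), MWK.pre_append (List.count_eq_zero.1 z5B)]
        rw [h1] at h5R
        simp only [List.count_append] at h5R
        omega
      have e5F : pre R 5 = pre F 5 := by rw [hR, MWK.pre_append_mem h5F]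
      have ab : ∀ d, nn u d 5 = u.count d → A.count d = 0 ∧ B.count d = 0 := by
        intro d hd
        have h1 := e5 d
        have h2 := cu d
        have h3 := cR d
        have h4 := MWK.count_pre_le F d 5
        rw [e5F] at h1
        omega
      obtain ⟨a1, b1⟩ := ab 1 kz.a5
      obtain ⟨a2, b2⟩ := ab 2 kz.b5
      have h3p : 3 ∈ p := by
        by_contra h3
        have h1 : nn u 4 3 = p.count 4 + g.count 4 + (pre R 3).count 4 := by
          unfold nn
          rw [hu, MWK.pre_append h3, MWK.pre_append (List.count_eq_zero.1 g3), List.count_append,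
            List.count_append]
          omega
        rw [kz.z3] at h1
        omega
      have p2 : 1 ≤ p.count 2 := by
        have h1 : nn u 2 3 = (pre p 3).count 2 := by
          unfold nn
          rw [hu, MWK.pre_append_mem h3p]
        have h2 := MWK.count_pre_le p 2 3
        rw [kz.b3] at h1
        omega
      have h4g : 4 ∈ g := List.count_pos_iff.1 (by omega)
      have h4g' : 4 ∈ g' := List.count_pos_iff.1 (by omega)
      have e4 : ∀ d, nn u d 4 = p.count d + (pre g 4).count d := by
        intro d
        unfold nn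
        rw [hu, MWK.pre_append hp, MWK.pre_append_mem h4g, List.count_append]
      have e4' : ∀ d, nn u' d 4 = p.count d + (pre g' 4).count d := by
        intro d
        unfold nn
        rw [hu', MWK.pre_append hp, MWK.pre_append_mem h4g', List.count_append]
      have z2 : Z.count 2 = 0 := by
        apply List.count_eq_zero.2
        intro h
        have h1 := (gp.pre h4Z' h4g h).1
        have h2 := e4 2
        rw [kz.bz] at h2
        omega
      have z1 : Z.count 1 = 0 := by
        apply List.count_eq_zero.2
        intro h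
        have h1 := (gp.pre h4Z' h4g h).2
        have h2 := e4 1
        have h3 := cu 1
        omega
      have g1 : g.count 1 = 0 := by rw [hg, z1, a1, b1]; omega
      have g2 : g.count 2 = 0 := by rw [hg, z2, a2, b2]; omega
      have g1' := zero 1 g1
      have g2' := zero 2 g2
      have q1 := MWK.count_pre_le g 1 4
      have q2 := MWK.count_pre_le g 2 4
      have q1' := MWK.count_pre_le g' 1 4
      have q2' := MWK.count_pre_le g' 2 4
      apply enough
      · have h1 := e4 1
        have h2 := cu 1
        have h3 := e4' 1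
        have h6 := cu' 1
        unfold Az
        omega
      · have h1 := e4 2
        rw [kz.bz] at h1
        have h2 := e4' 2
        omega

theorem kzx (hE : ExsStmt) : KzxStmt := by
  intro n c p Z A B F G H w w' hn hx hG
  obtain ⟨ox, -, -⟩ := hE n c p Z A B F G H w w' hn hx
  refine ⟨fun kz az => ?_, fun kz az => ?_⟩
  · exact core hx.e hx.e' rfl (gpL n c hn Z A B) (gpR n c hn Z A B) hG kz az ox
  · exact core hx.e' hx.e rfl (gpR n c hn Z A B) (gpL n c hn Z A B)
      (fun d hd => (ox.c2 d).1 (hG d hd)) kz az ox.symm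

end Pool.Agent.MWGX.H45
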